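import Mathlib
import Pool.Agent.Y160.SL.Cls

/-!
# Presentations of coordinate rings of plane curves

The lemmas of `Pool.Agent.Y46.FT.Pres` and `Pool.Agent.Y160.T7.Pres` which are used in
`Pool.Agent.Y3.T7.Irr`, copied here to keep the import closure small.
-/

set_option autoImplicit false
set_option linter.all false

open Polynomial

namespace Pool.Agent.Y3.T7

open Pool.Agent.Y160.SL (atZero powT IsTowerCurve)

/-- `R = k[x, u]`, where `F(x, u) = 0` is the only relation. -/
structure Pres {k R : Type} [Field k] [CommRing R] [Algebra k R] (x u : R) (F : k[X][X]) :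
    Prop where
  surj : ∀ z : R, ∃ p : k[X][X], eval₂ ((aeval x : k[X] →ₐ[k] R) : k[X] →+* R) u p = z
  ker : ∀ p : k[X][X], eval₂ ((aeval x : k[X] →ₐ[k] R) : k[X] →+* R) u p = 0 ↔ F ∣ p

/-- The residue ring at `u = b(x)`. -/
def StRes : Prop := ∀ (k R : Type) [Field k] [CommRing R] [Algebra k R] (x u : R) (F : k[X][X]),
  Pres x u F → ∀ b : k[X],
    (∀ p : k[X], (u - aeval x b) ∣ aeval x p ↔ F.eval b ∣ p) ∧
    ∀ z : R, ∃ p : k[X], (u - aeval x b) ∣ z - aeval x p

/-- The presentation of the Kummer extension. -/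
def StPres : Prop := ∀ (k R : Type) [Field k] [CommRing R] [Algebra k R] (x u π : R)
  (F : k[X][X]) (ℓ : ℕ) (a : k) (b : k[X]), 0 < ℓ → a ≠ 0 →
  u = aeval x b + algebraMap k R a * π → Pres x u F →
  Pres (algebraMap R (AdjoinRoot (X ^ ℓ - C π : R[X])) x) (AdjoinRoot.root (X ^ ℓ - C π : R[X]))
    (F.comp (C b + C (C a) * X ^ ℓ))

section

variable {k R : Type} [Field k] [CommRing R] [Algebra k R]

/-- evaluation at `(x, u)` -/
noncomputable def ev (x u : R) : k[X][X] →+* R :=
  eval₂RingHom ((aeval x : k[X] →ₐ[k] R) : k[X] →+* R) u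

lemma ev_apply (x u : R) (p : k[X][X]) :
    ev x u p = eval₂ ((aeval x : k[X] →ₐ[k] R) : k[X] →+* R) u p := rfl

lemma ev_C (x u : R) (p : k[X]) : ev x u (C p) = aeval x p := by
  rw [ev_apply, eval₂_C]; rfl

lemma ev_X (x u : R) : ev (k := k) x u X = u := by
  rw [ev_apply, eval₂_X]

lemma ev_comp (x u : R) (q G : k[X][X]) : ev x u (q.comp G) = ev x (ev x u G) q := by
  rw [ev_apply, ev_apply, ev_apply, eval₂_comp]

end

theorem stRes : StRes := by
  intro k R _ _ _ x u F hP b
  have hsurj : ∀ z : R, ∃ p : k[X][X], ev x u p = z := hP.surj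
  have hker : ∀ p : k[X][X], ev x u p = 0 ↔ F ∣ p := hP.ker
  have hsub : ∀ P : k[X][X], ∃ W : k[X][X],
      ev x u P - aeval x (P.eval b) = (u - aeval x b) * ev x u W := by
    intro P
    obtain ⟨W, hW⟩ := X_sub_C_dvd_sub_C_eval (a := b) (p := P)
    refine ⟨W, ?_⟩
    have h1 := congrArg (ev x u) hW
    rw [map_sub, map_mul, map_sub, ev_C, ev_C, ev_X] at h1
    exact h1
  refine ⟨fun p => ⟨?_, ?_⟩, ?_⟩
  · rintro ⟨z, hz⟩
    obtain ⟨Y, rfl⟩ := hsurj z
    have h1 : ev x u (C p - (X - C b) * Y) = 0 := by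
      rw [map_sub, map_mul, map_sub, ev_C, ev_C, ev_X, hz, sub_self]
    have h2 := eval_dvd (x := b) ((hker _).1 h1)
    rwa [eval_sub, eval_mul, eval_sub, eval_C, eval_C, eval_X, sub_self, zero_mul,
      sub_zero] at h2
  · rintro ⟨m, rfl⟩
    obtain ⟨W, hW⟩ := hsub F
    have hF : ev x u F = 0 := (hker F).2 dvd_rfl
    rw [hF, zero_sub] at hW
    have h1 : aeval x (F.eval b) = (u - aeval x b) * (-ev x u W) := by
      rw [mul_neg, ← hW, neg_neg]
    rw [map_mul, h1, mul_assoc]
    exact dvd_mul_right _ _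
  · intro z
    obtain ⟨P, rfl⟩ := hsurj z
    obtain ⟨W, hW⟩ := hsub P
    exact ⟨P.eval b, ⟨_, hW⟩⟩

lemma sum_shift {S : Type} [CommRing S] (m : ℕ) (f : ℕ → S) (X : S) (g : ℕ → S)
    (hg : ∀ i, g (i + 1) = f i) (hg0 : g 0 = f m * X ^ (m + 1)) :
    (∑ i ∈ Finset.range (m + 1), f i * X ^ i) * X =
      ∑ i ∈ Finset.range (m + 1), g i * X ^ i := by
  rw [Finset.sum_mul, Finset.sum_range_succ (fun i => f i * X ^ i * X),
    Finset.sum_range_succ' (fun i => g i * X ^ i), hg0, pow_zero, mul_one]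
  have h1 : f m * X ^ m * X = f m * X ^ (m + 1) := by rw [mul_assoc, ← pow_succ]
  have h2 : ∑ i ∈ Finset.range m, f i * X ^ i * X = ∑ i ∈ Finset.range m, g (i + 1) * X ^ (i + 1) :=
    Finset.sum_congr rfl fun i _ => by rw [hg, mul_assoc, ← pow_succ]
  rw [h1, h2]

/-- a polynomial is a combination of `1, X, …, X ^ (ℓ - 1)` with coefficients which are
polynomials in `b + a X ^ ℓ` -/
lemma decomp {k : Type} [Field k] (m : ℕ) (a : k) (ha : a ≠ 0) (b : k[X]) (p : k[X][X]) :
    ∃ q : ℕ → k[X][X], p = ∑ i ∈ Finset.range (m + 1),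
      (q i).comp (C b + C (C a) * X ^ (m + 1)) * X ^ i := by
  set G : k[X][X] := C b + C (C a) * X ^ (m + 1) with hG
  have hXm : (C (C a⁻¹) * (X - C b) : k[X][X]).comp G = X ^ (m + 1) := by
    rw [mul_comp, sub_comp, C_comp, X_comp, C_comp, hG, add_sub_cancel_left, ← mul_assoc,
      ← C_mul, ← C_mul, inv_mul_cancel₀ ha, C_1, C_1, one_mul]
  clear_value G
  clear hG
  induction p using Polynomial.induction_on with
  | C c =>
    refine ⟨fun i => if i = 0 then C c else 0, ?_⟩
    rw [Finset.sum_range_succ']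
    simp
  | add p p' h h' =>
    obtain ⟨q, hq⟩ := h
    obtain ⟨q', hq'⟩ := h'
    refine ⟨fun i => q i + q' i, ?_⟩
    simp only [add_comp, add_mul, Finset.sum_add_distrib]
    rw [← hq, ← hq']
  | monomial n c h =>
    obtain ⟨q, hq⟩ := h
    refine ⟨fun i => if i = 0 then q m * (C (C a⁻¹) * (X - C b)) else q (i - 1), ?_⟩
    have h1 : C c * X ^ (n + 1) = (∑ i ∈ Finset.range (m + 1), (q i).comp G * X ^ i) * X := by
      rw [← hq, pow_succ, mul_assoc]
    rw [h1]
    exact sum_shift m (fun i => (q i).comp G) X _ (fun i => by simp)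
      (by
        show (if (0 : ℕ) = 0 then q m * (C (C a⁻¹) * (X - C b)) else q (0 - 1)).comp G = _
        rw [if_pos rfl, mul_comp, hXm])

/-- linear independence of the powers of the root -/
lemma indep {R : Type} [CommRing R] (m : ℕ) (π : R) (c : ℕ → R)
    (h : ∑ i ∈ Finset.range (m + 1), AdjoinRoot.of (X ^ (m + 1) - C π : R[X]) (c i) *
      AdjoinRoot.root (X ^ (m + 1) - C π : R[X]) ^ i = 0) : ∀ i ∈ Finset.range (m + 1), c i = 0 := by
  nontriviality R
  set P : R[X] := ∑ i ∈ Finset.range (m + 1), C (c i) * X ^ i with hP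
  have hmon : (X ^ (m + 1) - C π : R[X]).Monic := monic_X_pow_sub_C π (Nat.succ_ne_zero m)
  have h1 : AdjoinRoot.mk (X ^ (m + 1) - C π : R[X]) P = 0 := by
    rw [hP, map_sum]
    refine Eq.trans (Finset.sum_congr rfl fun i _ => ?_) h
    rw [map_mul, map_pow, AdjoinRoot.mk_C, AdjoinRoot.mk_X]
  rw [AdjoinRoot.mk_eq_zero] at h1
  have hdeg : P.degree < (X ^ (m + 1) - C π : R[X]).degree := by
    rw [degree_X_pow_sub_C (Nat.succ_pos m)]
    refine lt_of_le_of_lt (degree_sum_le _ _) ?_
    rw [Finset.sup_lt_iff (WithBot.bot_lt_coe _)]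
    intro i hi
    refine lt_of_le_of_lt (degree_C_mul_X_pow_le _ _) ?_
    exact_mod_cast Finset.mem_range.1 hi
  have h2 : P = 0 := by
    by_contra hne
    exact hmon.not_dvd_of_degree_lt hne hdeg h1
  intro i hi
  have h3 : P.coeff i = c i := by
    rw [hP, finsetSum_coeff]
    rw [Finset.sum_eq_single i]
    · rw [coeff_C_mul, coeff_X_pow, if_pos rfl, mul_one]
    · intro j _ hj
      rw [coeff_C_mul, coeff_X_pow, if_neg hj.symm, mul_zero]
    · intro hi'
      exact absurd hi hi'
  rw [← h3, h2, coeff_zero]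

theorem stPres : StPres := by
  intro k R _ _ _ x u π F ℓ a b hℓ ha hu hP
  obtain ⟨m, rfl⟩ : ∃ m, ℓ = m + 1 := ⟨ℓ - 1, by omega⟩
  set f : R[X] := X ^ (m + 1) - C π with hf
  set G : k[X][X] := C b + C (C a) * X ^ (m + 1) with hG
  have hsurj : ∀ z : R, ∃ p : k[X][X], ev x u p = z := hP.surj
  have hker : ∀ p : k[X][X], ev x u p = 0 ↔ F ∣ p := hP.ker
  set x' : AdjoinRoot f := algebraMap R (AdjoinRoot f) x with hx'
  set r : AdjoinRoot f := AdjoinRoot.root f with hr
  have hroot : r ^ (m + 1) = algebraMap R (AdjoinRoot f) π := by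
    have h1 : AdjoinRoot.mk f (X ^ (m + 1) - C π) = 0 := AdjoinRoot.mk_self
    have h2 : AdjoinRoot.mk f (X ^ (m + 1) - C π) =
        r ^ (m + 1) - algebraMap R (AdjoinRoot f) π := by
      rw [map_sub, map_pow, AdjoinRoot.mk_X, AdjoinRoot.mk_C]
      rfl
    rw [h1] at h2
    exact (sub_eq_zero.1 h2.symm)
  have hae : ∀ p : k[X], aeval x' p = algebraMap R (AdjoinRoot f) (aeval x p) := fun p => by
    rw [hx', aeval_algebraMap_apply]
  have hevG : ev (k := k) x' r G = algebraMap R (AdjoinRoot f) u := by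
    rw [hG, map_add, map_mul, map_pow, ev_C, ev_C, ev_X, hroot, hae, hae, hu, map_add, map_mul,
      aeval_C]
  have hev : ∀ q : k[X][X], ev x' r (q.comp G) = algebraMap R (AdjoinRoot f) (ev x u q) := by
    intro q
    rw [ev_comp, hevG]
    have h3 : ((algebraMap R (AdjoinRoot f)).comp (ev x u)) =
        ev (k := k) x' (algebraMap R (AdjoinRoot f) u) := by
      refine Polynomial.ringHom_ext' ?_ ?_
      · refine RingHom.ext fun p => ?_
        show algebraMap R (AdjoinRoot f) (ev x u (C p)) = ev (k := k) x' _ (C p)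
        rw [ev_C, ev_C, hae]
      · show algebraMap R (AdjoinRoot f) (ev x u X) = ev (k := k) x' _ X
        rw [ev_X, ev_X]
    rw [← h3]
    rfl
  refine ⟨?_, ?_⟩
  · intro z
    show ∃ p : k[X][X], ev x' r p = z
    induction z using AdjoinRoot.induction_on with
    | ih P =>
    induction P using Polynomial.induction_on' with
    | add P P' h h' =>
      obtain ⟨p, hp⟩ := h
      obtain ⟨p', hp'⟩ := h'
      exact ⟨p + p', by rw [map_add, hp, hp', map_add]⟩
    | monomial n c =>
      obtain ⟨y, hy⟩ := hsurj c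
      refine ⟨y.comp G * X ^ n, ?_⟩
      rw [map_mul, map_pow, hev, ev_X, hy, ← C_mul_X_pow_eq_monomial, map_mul, map_pow,
        AdjoinRoot.mk_C, AdjoinRoot.mk_X]
      rfl
  · intro p
    show ev x' r p = 0 ↔ F.comp G ∣ p
    constructor
    · intro h
      obtain ⟨q, hq⟩ := decomp m a ha b p
      have h4 : ∑ i ∈ Finset.range (m + 1), AdjoinRoot.of f (ev x u (q i)) * r ^ i = 0 := by
        rw [← h, hq, map_sum]
        refine Finset.sum_congr rfl fun i _ => ?_
        rw [map_mul, map_pow, ev_X, ← hG, hev]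
        rfl
      have h5 := indep m π (fun i => ev x u (q i)) h4
      rw [hq]
      refine Finset.dvd_sum fun i hi => ?_
      obtain ⟨s, hs⟩ := (hker (q i)).1 (h5 i hi)
      rw [hs, mul_comp, ← hG, mul_assoc]
      exact dvd_mul_right _ _
    · rintro ⟨s, rfl⟩
      rw [map_mul, hev, (hker F).2 dvd_rfl, map_zero, zero_mul]

theorem eval_swap {k R : Type} [Field k] [CommRing R] [Algebra k R] (x u : R) (P : k[X][X]) :
    eval₂ ((aeval u : k[X] →ₐ[k] R) : k[X] →+* R) x P =
      eval₂ ((aeval x : k[X] →ₐ[k] R) : k[X] →+* R) u (Bivariate.swap P) := by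
  have key : eval₂RingHom ((aeval u : k[X] →ₐ[k] R) : k[X] →+* R) x =
      (eval₂RingHom ((aeval x : k[X] →ₐ[k] R) : k[X] →+* R) u).comp
        (Bivariate.swap (R := k) : k[X][X] →+* k[X][X]) := by
    apply Polynomial.ringHom_ext'
    · apply Polynomial.ringHom_ext
      · intro a
        show eval₂ _ _ (C (C a)) = eval₂ _ _ (Bivariate.swap (C (C a)))
        rw [Bivariate.swap_C_C, eval₂_C, eval₂_C]
        show aeval u (C a) = aeval x (C a)
        rw [aeval_C, aeval_C]
      · show eval₂ _ _ (C X) = eval₂ _ _ (Bivariate.swap (C X))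
        rw [Bivariate.swap_X, eval₂_C, eval₂_X]
        show aeval u X = u
        rw [aeval_X]
    · show eval₂ _ _ X = eval₂ _ _ (Bivariate.swap X)
      rw [Bivariate.swap_Y, eval₂_C, eval₂_X]
      show x = aeval x X
      rw [aeval_X]
  exact congrArg (fun g : k[X][X] →+* R => g P) key

section pres

variable {k R : Type} [Field k] [CommRing R] [Algebra k R] {t x : R} {f : k[X][X]}

theorem pres_unit (h : Pres t x f) {c : k} (hc : c ≠ 0) : Pres t x (C (C c) * f) := by
  have hu : IsUnit (C (C c) : k[X][X]) := (isUnit_C.2 (isUnit_C.2 (IsUnit.mk0 _ hc)))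
  exact ⟨h.surj, fun p => (h.ker p).trans (hu.mul_left_dvd).symm⟩

theorem pres_swap' (h : Pres t x f) : Pres x t (Bivariate.swap f) := by
  constructor
  · intro z
    obtain ⟨p, hp⟩ := h.surj z
    exact ⟨Bivariate.swap p, by rw [eval_swap, Bivariate.swap_swap_apply, hp]⟩
  · intro p
    rw [eval_swap, h.ker]
    constructor
    · rintro ⟨r, hr⟩
      refine ⟨Bivariate.swap r, ?_⟩
      rw [← map_mul, ← hr, Bivariate.swap_swap_apply]
    · rintro ⟨r, hr⟩
      refine ⟨Bivariate.swap r, ?_⟩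
      rw [hr, map_mul, Bivariate.swap_swap_apply]

/-- The inverse change of coordinates. -/
theorem comp_inv {c : k} (hc : c ≠ 0) (b : k[X]) :
    (C (C c) * X + C b : k[X][X]).comp (C (C c⁻¹) * (X - C b)) = X ∧
    (C (C c⁻¹) * (X - C b) : k[X][X]).comp (C (C c) * X + C b) = X := by
  have e1 : (C (C c) : k[X][X]) * C (C c⁻¹) = 1 := by
    rw [← C_mul, ← C_mul, mul_inv_cancel₀ hc, C_1, C_1]
  constructor
  · rw [add_comp, mul_comp, C_comp, X_comp, C_comp, ← mul_assoc, e1, one_mul, sub_add_cancel]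
  · rw [mul_comp, C_comp, sub_comp, X_comp, C_comp, add_sub_cancel_right, ← mul_assoc,
      mul_comm (C (C c⁻¹)), e1, one_mul]

theorem pres_shear (h : Pres t x f) {c : k} (hc : c ≠ 0) (b : k[X]) :
    Pres t (eval₂ ((aeval t : k[X] →ₐ[k] R) : k[X] →+* R) x (C (C c⁻¹) * (X - C b)))
      (f.comp (C (C c) * X + C b)) := by
  obtain ⟨h1, h2⟩ := comp_inv hc b
  have key : ∀ P : k[X][X], eval₂ ((aeval t : k[X] →ₐ[k] R) : k[X] →+* R)
      (eval₂ ((aeval t : k[X] →ₐ[k] R) : k[X] →+* R) x (C (C c⁻¹) * (X - C b))) P =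
      eval₂ ((aeval t : k[X] →ₐ[k] R) : k[X] →+* R) x (P.comp (C (C c⁻¹) * (X - C b))) :=
    fun P => (eval₂_comp _).symm
  constructor
  · intro z
    obtain ⟨p, hp⟩ := h.surj z
    refine ⟨p.comp (C (C c) * X + C b), ?_⟩
    rw [key, comp_assoc, h1, comp_X, hp]
  · intro p
    rw [key, h.ker]
    constructor
    · rintro ⟨r, hr⟩
      refine ⟨r.comp (C (C c) * X + C b), ?_⟩
      rw [← mul_comp, ← hr, comp_assoc, h2, comp_X]
    · rintro ⟨r, hr⟩
      refine ⟨r.comp (C (C c⁻¹) * (X - C b)), ?_⟩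
      rw [hr, mul_comp, comp_assoc, h1, comp_X]

theorem swap_powT (p : ℕ) (f : k[X][X]) :
    Bivariate.swap ((Bivariate.swap f).comp (C 0 + C (C 1) * X ^ p)) = powT p f := by
  have key : ((Bivariate.swap (R := k) : k[X][X] →+* k[X][X]).comp
      ((compRingHom (C 0 + C (C 1) * X ^ p : k[X][X])).comp
        (Bivariate.swap (R := k) : k[X][X] →+* k[X][X]))) =
      mapRingHom (expand k p : k[X] →+* k[X]) := by
    apply Polynomial.ringHom_ext'
    · apply Polynomial.ringHom_ext
      · intro a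
        show Bivariate.swap ((Bivariate.swap (C (C a))).comp _) = map _ (C (C a))
        rw [Bivariate.swap_C_C, C_comp, Bivariate.swap_C_C, map_C]
        congr 1
        show C a = expand k p (C a)
        rw [expand_C]
      · show Bivariate.swap ((Bivariate.swap (C X)).comp _) = map _ (C X)
        rw [Bivariate.swap_X, X_comp, C_0, zero_add, C_1, C_1, one_mul, map_pow, Bivariate.swap_Y,
          map_C]
        show _ = C (expand k p X)
        rw [expand_X, C_pow]
    · show Bivariate.swap ((Bivariate.swap X).comp _) = map _ X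
      rw [Bivariate.swap_Y, C_comp, Bivariate.swap_X, map_X]
  exact congrArg (fun g : k[X][X] →+* k[X][X] => g f) key

theorem pres_root {p : ℕ} (hp : 0 < p) (h : Pres t x f) :
    Pres (AdjoinRoot.root (X ^ p - C t : R[X]))
      (algebraMap R (AdjoinRoot (X ^ p - C t : R[X])) x) (powT p f) := by
  have h1 := stPres k R x t t (Bivariate.swap f) p 1 0 hp one_ne_zero
    (by rw [map_zero, map_one, zero_add, one_mul]) (pres_swap' h)
  have h2 := pres_swap' h1
  rw [swap_powT] at h2
  exact h2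

theorem swap_eval_zero (f : k[X][X]) : (Bivariate.swap f).eval 0 = atZero f := by
  have key : (evalRingHom (0 : k[X])).comp (Bivariate.swap (R := k) : k[X][X] →+* k[X][X]) =
      mapRingHom (evalRingHom (0 : k)) := by
    apply Polynomial.ringHom_ext'
    · apply Polynomial.ringHom_ext
      · intro a
        show eval 0 (Bivariate.swap (C (C a))) = map _ (C (C a))
        rw [Bivariate.swap_C_C, eval_C, map_C]
        congr 1
        show a = eval 0 (C a)
        rw [eval_C]
      · show eval 0 (Bivariate.swap (C X)) = map _ (C X)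
        rw [Bivariate.swap_X, eval_X, map_C]
        show _ = C (eval 0 X)
        rw [eval_X, C_0]
    · show eval 0 (Bivariate.swap X) = map _ X
      rw [Bivariate.swap_Y, eval_C, map_X]
  exact congrArg (fun g : k[X][X] →+* k[X] => g f) key

/-- The residue ring at `t = 0`. -/
theorem res_zero (h : Pres t x f) : (∀ p : k[X], t ∣ aeval x p ↔ atZero f ∣ p) ∧
    ∀ z : R, ∃ p : k[X], t ∣ z - aeval x p := by
  obtain ⟨h1, h2⟩ := stRes k R x t (Bivariate.swap f) (pres_swap' h) 0
  rw [map_zero, sub_zero] at h1 h2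
  rw [swap_eval_zero] at h1
  exact ⟨h1, h2⟩

/-- `t` is not zero. -/
theorem t_ne_zero (h : Pres t x f) (hn : 0 < (atZero f).natDegree) (h0 : atZero f ≠ 0) : t ≠ 0 := by
  intro ht
  have h1 : f ∣ C X := (h.ker (C X)).1 (by
    rw [eval₂_C]
    show aeval t X = 0
    rw [aeval_X, ht])
  obtain ⟨g, hg⟩ := h1
  have hCX : (C X : k[X][X]) ≠ 0 := C_ne_zero.2 X_ne_zero
  have hf0 : f ≠ 0 := fun h2 => hCX (by rw [hg, h2, zero_mul])
  have hg0 : g ≠ 0 := fun h2 => hCX (by rw [hg, h2, mul_zero])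
  have h3 := congrArg natDegree hg
  rw [natDegree_C, natDegree_mul hf0 hg0] at h3
  have h4 : (atZero f).natDegree ≤ f.natDegree := natDegree_map_le
  omega

end pres

end Pool.Agent.Y3.T7
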