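import Pool.Agent.Y160.T7.Stm
import Pool.Agent.Y3.T7.Pr

/-!
# Absolute irreducibility of the tower curves
-/

set_option autoImplicit false
set_option linter.all false

open Polynomial

namespace Pool.Agent.Y3.T7

open Pool.Agent.Y160.SL (atZero powT IsTowerCurve)

section dom

variable {E : Type} [Field E]

/-- The coordinate ring of the curve `g = 0` is a domain. -/
def Dom (g : E[X][X]) : Prop :=
  ∃ (R : Type) (_ : CommRing R) (_ : IsDomain R) (_ : Algebra E R) (t x : R), Pres t x g

theorem dom_line : Dom (X : E[X][X]) := by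
  refine ⟨E[X], inferInstance, inferInstance, inferInstance, X, 0, ?_, ?_⟩
  · intro z
    refine ⟨C z, ?_⟩
    rw [eval₂_C]
    show aeval X z = z
    rw [aeval_X_left_apply]
  · intro p
    rw [eval₂_at_zero, X_dvd_iff]
    show aeval X (p.coeff 0) = 0 ↔ _
    rw [aeval_X_left_apply]

theorem dom_unit {g : E[X][X]} (h : Dom g) {c : E} (hc : c ≠ 0) : Dom (C (C c) * g) := by
  obtain ⟨R, i1, i2, i3, t, x, hP⟩ := h
  exact ⟨R, i1, i2, i3, t, x, pres_unit hP hc⟩

theorem dom_swap {g : E[X][X]} (h : Dom g) : Dom (Bivariate.swap g) := by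
  obtain ⟨R, i1, i2, i3, t, x, hP⟩ := h
  exact ⟨R, i1, i2, i3, x, t, pres_swap' hP⟩

theorem dom_shear {g : E[X][X]} (h : Dom g) {c : E} (hc : c ≠ 0) (b : E[X]) :
    Dom (g.comp (C (C c) * X + C b)) := by
  obtain ⟨R, i1, i2, i3, t, x, hP⟩ := h
  exact ⟨R, i1, i2, i3, t, _, pres_shear hP hc b⟩

/-- `t` divides `z` if it divides a power of `z`. -/
theorem dvd_of_dvd_pow {R : Type} [CommRing R] [Algebra E R] {t x : R} {g : E[X][X]}
    (hP : Pres t x g) (hs : Squarefree (atZero g)) {p : ℕ} (hp : p ≠ 0) (z : R)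
    (hz : t ∣ z ^ p) : t ∣ z := by
  obtain ⟨h1, h2⟩ := res_zero hP
  obtain ⟨q, hq⟩ := h2 z
  have h3 : t ∣ z ^ p - (aeval x q) ^ p := hq.trans (sub_dvd_pow_sub_pow _ _ _)
  have h4 : t ∣ aeval x (q ^ p) := by
    rw [map_pow]
    have h5 := dvd_sub hz h3
    rwa [sub_sub_cancel] at h5
  have h6 : atZero g ∣ q := (hs.dvd_pow_iff_dvd hp).1 ((h1 _).1 h4)
  have h7 : t ∣ aeval x q := (h1 _).2 h6
  have h8 := dvd_add hq h7
  rwa [sub_add_cancel] at h8

/-- The descent. -/
theorem descent {R : Type} [CommRing R] [IsDomain R] {t : R} (ht : t ≠ 0) {p : ℕ} (hp : 2 ≤ p)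
    (hd : ∀ z : R, t ∣ z ^ p → t ∣ z) (n : ℕ) : ∀ a b : R, t * b ^ p = a ^ p → t ^ n ∣ b := by
  induction n with
  | zero =>
    intro a b _
    rw [pow_zero]
    exact one_dvd _
  | succ n ih =>
    intro a b hab
    obtain ⟨a', rfl⟩ := hd a ⟨b ^ p, hab.symm⟩
    obtain ⟨m, rfl⟩ : ∃ m, p = m + 2 := ⟨p - 2, by omega⟩
    have h1 : b ^ (m + 2) = t ^ (m + 1) * a' ^ (m + 2) := by
      apply mul_left_cancel₀ ht
      rw [hab, mul_pow]
      ring
    obtain ⟨b', rfl⟩ := hd b (by
      rw [h1, pow_succ]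
      exact Dvd.dvd.mul_right (dvd_mul_left t _) _)
    have h2 : t * b' ^ (m + 2) = a' ^ (m + 2) := by
      apply mul_left_cancel₀ (pow_ne_zero (m + 1) ht)
      rw [← h1, mul_pow]
      ring
    obtain ⟨c, hc⟩ := ih a' b' h2
    exact ⟨c, by rw [hc]; ring⟩

/-- `X ^ p - t` is prime. -/
theorem prime_root {R : Type} [CommRing R] [IsDomain R] [IsNoetherianRing R] {t : R} (ht : t ≠ 0)
    (hu : ¬ IsUnit t) {p : ℕ} (hp : p.Prime) (hd : ∀ z : R, t ∣ z ^ p → t ∣ z) :
    Prime (X ^ p - C t : R[X]) := by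
  have hinj : Function.Injective (algebraMap R (FractionRing R)) :=
    IsFractionRing.injective R (FractionRing R)
  have hirr : Irreducible (X ^ p - C (algebraMap R (FractionRing R) t) : (FractionRing R)[X]) := by
    apply X_pow_sub_C_irreducible_of_prime hp
    intro y hy
    obtain ⟨a, b, hb, rfl⟩ := IsFractionRing.div_surjective (A := R) y
    have hb0 : b ≠ 0 := nonZeroDivisors.ne_zero hb
    have hb1 : algebraMap R (FractionRing R) b ≠ 0 := fun h => hb0 (hinj (by rw [h, map_zero]))
    have h1 : t * b ^ p = a ^ p := by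
      apply hinj
      rw [map_mul, map_pow, map_pow, ← hy, div_pow, div_mul_cancel₀]
      exact pow_ne_zero _ hb1
    have h2 := FiniteMultiplicity.of_not_isUnit hu hb0
    obtain ⟨n, hn⟩ := h2
    exact hn (descent ht hp.two_le hd (n + 1) a b h1)
  have hmap : (X ^ p - C t : R[X]).map (algebraMap R (FractionRing R)) =
      X ^ p - C (algebraMap R (FractionRing R) t) := by
    rw [Polynomial.map_sub, Polynomial.map_pow, map_X, map_C]
  have hmon : (X ^ p - C t : R[X]).Monic := monic_X_pow_sub_C t hp.ne_zero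
  refine ⟨hmon.ne_zero, ?_, ?_⟩
  · intro h
    have h1 := hirr.not_isUnit
    rw [← hmap] at h1
    exact h1 (h.map (mapRingHom (algebraMap R (FractionRing R))))
  · intro a b hab
    have h1 : (X ^ p - C t : R[X]).map (algebraMap R (FractionRing R)) ∣
        a.map (algebraMap R (FractionRing R)) * b.map (algebraMap R (FractionRing R)) := by
      rw [← Polynomial.map_mul]
      exact (map_dvd_map _ hinj hmon).2 hab
    rw [hmap] at h1
    rcases hirr.prime.dvd_or_dvd h1 with h2 | h2
    · left
      rw [← hmap] at h2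
      exact (map_dvd_map _ hinj hmon).1 h2
    · right
      rw [← hmap] at h2
      exact (map_dvd_map _ hinj hmon).1 h2

theorem dom_root {g : E[X][X]} (h : Dom g) {p : ℕ} (hp : p.Prime) (hs : (atZero g).Separable)
    (hn : 0 < (atZero g).natDegree) : Dom (powT p g) := by
  obtain ⟨R, i1, i2, i3, t, x, hP⟩ := h
  have h0 : atZero g ≠ 0 := fun h => by rw [h, natDegree_zero] at hn; exact lt_irrefl _ hn
  have ht : t ≠ 0 := t_ne_zero hP hn h0
  have hu : ¬ IsUnit t := by
    intro hu
    have h1 : atZero g ∣ 1 := ((res_zero hP).1 1).1 hu.dvd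
    have h2 := natDegree_eq_zero_of_isUnit (isUnit_of_dvd_one h1)
    omega
  haveI hN : IsNoetherianRing R := by
    refine isNoetherianRing_of_surjective E[X][X] R
      (eval₂RingHom ((aeval t : E[X] →ₐ[E] R) : E[X] →+* R) x) ?_
    intro z
    obtain ⟨q, hq⟩ := hP.surj z
    exact ⟨q, hq⟩
  have hprime := prime_root ht hu hp (fun z hz => dvd_of_dvd_pow hP hs.squarefree hp.ne_zero z hz)
  exact ⟨AdjoinRoot (X ^ p - C t : R[X]), inferInstance, AdjoinRoot.isDomain_of_prime hprime,
    inferInstance, _, _, pres_root hp.pos hP⟩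

theorem irr_of_dom {g : E[X][X]} (h : Dom g) (hm : g.Monic) : Irreducible g := by
  obtain ⟨R, i1, i2, i3, t, x, hP⟩ := h
  have hprime : Prime g := by
    refine ⟨hm.ne_zero, ?_, ?_⟩
    · intro hu
      have h1 := (hP.ker 1).2 hu.dvd
      rw [eval₂_one] at h1
      exact one_ne_zero h1
    · intro a b hab
      have h1 := (hP.ker _).2 hab
      rw [eval₂_mul] at h1
      rcases mul_eq_zero.1 h1 with h2 | h2
      · exact Or.inl ((hP.ker a).1 h2)
      · exact Or.inr ((hP.ker b).1 h2)
  exact hprime.irreducible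

end dom

section bc

variable {k E : Type} [Field k] [Field E] [Algebra k E]

/-- Base change. -/
noncomputable def bc (k E : Type) [Field k] [Field E] [Algebra k E] : k[X] →+* E[X] :=
  mapRingHom (algebraMap k E)

theorem bc_C (c : k) : bc k E (C c) = C (algebraMap k E c) := by
  show (C c).map _ = _
  rw [map_C]

theorem bc_X : bc k E X = X := by
  show (X : k[X]).map _ = _
  rw [map_X]

theorem atZero_bc (f : k[X][X]) : atZero (f.map (bc k E)) = (atZero f).map (algebraMap k E) := by
  unfold atZero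
  rw [map_map, map_map]
  congr 1
  apply Polynomial.ringHom_ext
  · intro a
    show eval 0 (bc k E (C a)) = algebraMap k E (eval 0 (C a))
    rw [bc_C, eval_C, eval_C]
  · show eval 0 (bc k E X) = algebraMap k E (eval 0 X)
    rw [bc_X, eval_X, eval_X, map_zero]

theorem powT_bc (p : ℕ) (f : k[X][X]) : (powT p f).map (bc k E) = powT p (f.map (bc k E)) := by
  unfold powT
  rw [map_map, map_map]
  congr 1
  apply Polynomial.ringHom_ext
  · intro a
    show bc k E (expand k p (C a)) = expand E p (bc k E (C a))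
    rw [expand_C, bc_C, expand_C]
  · show bc k E (expand k p X) = expand E p (bc k E X)
    rw [expand_X, map_pow, bc_X, expand_X]

theorem swap_bc (f : k[X][X]) :
    (Bivariate.swap f).map (bc k E) = Bivariate.swap (f.map (bc k E)) := by
  have key : (mapRingHom (bc k E)).comp (Bivariate.swap (R := k) : k[X][X] →+* k[X][X]) =
      (Bivariate.swap (R := E) : E[X][X] →+* E[X][X]).comp (mapRingHom (bc k E)) := by
    apply Polynomial.ringHom_ext'
    · apply Polynomial.ringHom_ext
      · intro a
        show map _ (Bivariate.swap (C (C a))) = Bivariate.swap (map _ (C (C a)))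
        rw [Bivariate.swap_C_C, map_C, bc_C, Bivariate.swap_C_C]
      · show map _ (Bivariate.swap (C X)) = Bivariate.swap (map _ (C X))
        rw [Bivariate.swap_X, map_X, map_C, bc_X, Bivariate.swap_X]
    · show map _ (Bivariate.swap X) = Bivariate.swap (map _ X)
      rw [Bivariate.swap_Y, map_C, bc_X, map_X, Bivariate.swap_Y]
  exact congrArg (fun g : k[X][X] →+* E[X][X] => g f) key

theorem dom_tower {p : ℕ} (hp : p.Prime) {f : k[X][X]} (h : IsTowerCurve p f) :
    Dom (f.map (bc k E)) := by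
  induction h with
  | line => rw [map_X]; exact dom_line
  | unit f c hc _ ih =>
    rw [Polynomial.map_mul, map_C, bc_C]
    exact dom_unit ih (by rwa [Ne, map_eq_zero])
  | swap f _ ih =>
    rw [swap_bc]
    exact dom_swap ih
  | shear f c b hc _ ih =>
    rw [map_comp, Polynomial.map_add, Polynomial.map_mul, map_C, map_C, map_X, bc_C]
    exact dom_shear ih (by rwa [Ne, map_eq_zero]) _
  | root f hi hs hc _ ih =>
    rw [powT_bc]
    refine dom_root ih hp ?_ ?_
    · rw [atZero_bc]
      exact hs.map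
    · rw [atZero_bc, natDegree_map]
      exact hi.natDegree_pos

end bc

theorem st_irr : Pool.Agent.Y160.T7.St_irr := by
  intro p k E F _ _ _ _ _ _ f hp hf hm
  have hm' : (f.map (mapRingHom (algebraMap k E))).Monic := hm.map _
  have h1 : Irreducible (f.map (mapRingHom (algebraMap k E))) := irr_of_dom (dom_tower hp hf) hm'
  exact (Polynomial.Monic.irreducible_iff_irreducible_map_fraction_map (K := F) hm').1 h1

end Pool.Agent.Y3.T7
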